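import Pool.Agent.P.MP_04e97d_an.Final

namespace Pool.Agent.P.MP_04e97d_an.Old.NoHinfty

open Pool.Agent.P.MP_04e97d_an

theorem result :
    ∃ (X : Type) (_ : NormedAddCommGroup X) (_ : NormedSpace ℂ X) (_ : CompleteSpace X)
      (E : Type) (_ : NormedAddCommGroup E) (_ : NormedSpace ℝ E) (_ : CompleteSpace E)
      (_ : Lattice E) (_ : IsOrderedAddMonoid E) (_ : IsOrderedModule ℝ E) (_ : HasSolidNorm E)
      (ι : E →ₗ[ℝ] X),
      IsComplexification E X ι ∧ IsUMD X ∧ Nonempty (X ≃L[ℂ] lp (fun _ : ℕ => ℂ) 2) ∧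
      ∃ (A : X →L[ℂ] X) (T : ℝ → X →L[ℂ] X),
        IsSectorial A ∧ GeneratesNeg A T ∧ (∀ t ≥ 0, ‖T t‖ ≤ 1) ∧
        (∀ t ≥ 0, ∀ a : E, 0 ≤ a → ∃ b : E, 0 ≤ b ∧ T t (ι a) = ι b) ∧
        ¬ HasBoundedHinf A :=
  ⟨XX, inferInstance, inferInstance, inferInstance, EE, inferInstance, inferInstance,
    inferInstance, inferInstance, inferInstance, inferInstance, inferInstance, iota,
    complexification, umdX, ⟨eH⟩, AX, TX, sectorialX, generatesX, TX_contr, positiveX, not_hinf⟩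

end Pool.Agent.P.MP_04e97d_an.Old.NoHinfty
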